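import Pool.Agent.Helper71.CK.Goals

/-!
# CK-SPECIAL (helper71's project on MP_d34459_al)

Few special blocks in a cheap noncrossing partition.
-/

set_option autoImplicit false

namespace Pool.Agent.Helper51.CK

open Pool.Agent.CK

theorem nc_mem (L : List (Fin 2 × ℤ)) (B : List (Fin 2 × List ℤ)) (h : NC L B) :
    ∀ b ∈ B, ∀ x ∈ b.2, (b.1, x) ∈ L := by
  induction h with
  | nil => intro b hb; simp at hb
  | ins g L₁ K L₂ B _ ih =>
    intro b hb x hx
    rcases List.mem_cons.1 hb with rfl | hb
    · simp only [List.append_assoc, List.mem_append]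
      right; left
      simp only [bl, List.mem_map]
      exact ⟨x, hx, rfl⟩
    · have := ih b hb x hx
      simp only [List.mem_append] at this ⊢
      tauto

theorem filt_sum (B : List (Fin 2 × List ℤ)) :
    (B.filter (fun b => b.2.sum ≠ 0)).length ≤ cost B := by
  induction B with
  | nil => simp [cost]
  | cons b B ih =>
    simp only [cost] at ih ⊢
    rw [List.filter_cons]
    by_cases hb : b.2.sum ≠ 0
    · rw [if_pos (by simpa using hb)]
      simp only [List.length_cons, List.map_cons, List.sum_cons]
      have : 1 ≤ b.2.sum.natAbs := Nat.one_le_iff_ne_zero.2 (by simpa using hb)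
      omega
    · rw [if_neg (by simpa using hb)]
      simp only [List.map_cons, List.sum_cons]
      omega

theorem filt_len (B : List (Fin 2 × List ℤ)) :
    (B.filter (fun b => 3 ≤ b.2.length)).length ≤ (B.map (fun b => b.2.length - 2)).sum := by
  induction B with
  | nil => simp
  | cons b B ih =>
    rw [List.filter_cons]
    by_cases hb : 3 ≤ b.2.length
    · rw [if_pos (by simpa using hb)]
      simp only [List.length_cons, List.map_cons, List.sum_cons]
      omega
    · rw [if_neg (by simpa using hb)]
      simp only [List.map_cons, List.sum_cons]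
      omega

theorem filt_or {α : Type*} (p q : α → Prop) [DecidablePred p] [DecidablePred q] (B : List α) :
    (B.filter (fun b => p b ∨ q b)).length ≤
      (B.filter (fun b => p b)).length + (B.filter (fun b => q b)).length := by
  induction B with
  | nil => simp
  | cons b B ih =>
    simp only [List.filter_cons]
    by_cases hp : p b <;> by_cases hq : q b <;> simp [hp, hq] <;> simp at ih <;> omega

theorem filt_mono {α : Type*} (p q : α → Prop) [DecidablePred p] [DecidablePred q] (B : List α)
    (h : ∀ b ∈ B, p b → q b) :
    (B.filter (fun b => p b)).length ≤ (B.filter (fun b => q b)).length := by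
  induction B with
  | nil => simp
  | cons b B ih =>
    have ih' := ih (fun c hc => h c (List.mem_cons_of_mem _ hc))
    have hb := h b List.mem_cons_self
    simp only [List.filter_cons]
    by_cases hp : p b
    · have hq := hb hp
      simp [hp, hq]
      omega
    · by_cases hq : q b
      · simp [hp, hq]
        omega
      · simp [hp, hq]
        omega

theorem sum_len_le (n : ℕ) (S : List (Fin 2 × List ℤ)) (h : ∀ b ∈ S, b.2.length ≤ n) :
    (S.flatMap (fun b => b.2)).length ≤ S.length * n := by
  induction S with
  | nil => simp
  | cons b S ih =>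
    have h1 := ih (fun c hc => h c (List.mem_cons_of_mem _ hc))
    have h2 := h b List.mem_cons_self
    simp only [List.flatMap_cons, List.length_append, List.length_cons]
    rw [Nat.add_mul]
    omega

theorem le_sum_map {α : Type*} (f : α → ℕ) (B : List α) (b : α) (hb : b ∈ B) :
    f b ≤ (B.map f).sum := by
  induction B with
  | nil => simp at hb
  | cons c B ih =>
    simp only [List.map_cons, List.sum_cons]
    rcases List.mem_cons.1 hb with rfl | hb
    · omega
    · have := ih hb
      omega

/-- **CK-SPECIAL**. -/
theorem special (h : S_EXCESS) : S_SPECIAL := by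
  intro D L B hNC hc hadj hnz
  have hmem := nc_mem L B hNC
  have hne : ∀ b ∈ B, ∀ x ∈ b.2, x ≠ 0 := fun b hb x hx => hnz _ (hmem b hb x hx)
  by_cases hL : L = []
  · refine ⟨∅, by simp, ?_⟩
    intro b hb
    left
    rw [List.eq_nil_iff_forall_not_mem]
    intro x hx
    have := hmem b hb x hx
    rw [hL] at this
    simp at this
  have hex := h L B hNC hL
  have h1 : (B.filter (fun b => b.2.length = 1)).length ≤
      (B.filter (fun b => b.2.sum ≠ 0)).length := by
    apply filt_mono
    intro b hb hb1 h0
    obtain ⟨x, hx⟩ := List.length_eq_one_iff.1 hb1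
    rw [hx] at h0
    simp at h0
    exact hne b hb x (by rw [hx]; simp) h0
  have h2 := filt_sum B
  have h3 := filt_len B
  have hsum : (B.map (fun b => b.2.length - 2)).sum ≤ D + 1 := by omega
  have hlen : ∀ b ∈ B, b.2.length ≤ D + 3 := by
    intro b hb
    have := le_sum_map (fun b : Fin 2 × List ℤ => b.2.length - 2) B b hb
    omega
  have hab : ∀ b ∈ B, b.2.sum.natAbs ≤ D := by
    intro b hb
    have := le_sum_map (fun b : Fin 2 × List ℤ => b.2.sum.natAbs) B b hb
    simp only [cost] at this hc
    omega
  have h4 := filt_or (fun b : Fin 2 × List ℤ => b.2.sum ≠ 0) (fun b => 3 ≤ b.2.length) B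
  set S := B.filter (fun b => b.2.sum ≠ 0 ∨ 3 ≤ b.2.length) with hS
  have hScard : S.length ≤ 2 * D + 1 := by omega
  refine ⟨(S.flatMap (fun b => b.2)).toFinset, ?_, ?_⟩
  · refine (List.toFinset_card_le _).trans ?_
    refine (sum_len_le (D + 3) S ?_).trans (Nat.mul_le_mul_right _ hScard)
    intro b hb
    exact hlen b (List.mem_filter.1 hb).1
  · intro b hb
    by_cases hsp : b.2.sum ≠ 0 ∨ 3 ≤ b.2.length
    · right; right
      refine ⟨hlen b hb, hab b hb, ?_⟩
      intro x hx
      rw [List.mem_toFinset, List.mem_flatMap]
      exact ⟨b, List.mem_filter.2 ⟨hb, by simpa using hsp⟩, hx⟩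
    · push Not at hsp
      obtain ⟨hs0, hl⟩ := hsp
      rcases hK : b.2 with _ | ⟨x, _ | ⟨y, _ | ⟨z, K⟩⟩⟩
      · left; rfl
      · exfalso
        rw [hK] at hs0
        simp at hs0
        exact hne b hb x (by rw [hK]; simp) hs0
      · right; left
        refine ⟨x, ?_⟩
        rw [hK] at hs0
        simp at hs0
        have : y = -x := by omega
        rw [this]
      · exfalso
        rw [hK] at hl
        simp only [List.length_cons] at hl
        omega

end Pool.Agent.Helper51.CK
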